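import Mathlib

/-!
# The converse for digit sets

If `β ^ q = b ^ r`, then for no number `lam` whose base `b` digits avoid a digit is `lam * β ^ n` equidistributed modulo one.
-/

set_option autoImplicit false

namespace Pool.Agent.Helper46.CMConv

open Filter Topology

/-- numbers with `l` digits in `A` -/
def W (b : ℕ) (A : Finset ℕ) : ℕ → Finset ℕ
  | 0 => {0}
  | l + 1 => (W b A l ×ˢ A).image (fun p => b * p.1 + p.2)

theorem card_W (b : ℕ) (A : Finset ℕ) (l : ℕ) : (W b A l).card ≤ A.card ^ l := by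
  induction l with
  | zero => simp [W]
  | succ l ih =>
    rw [W]
    refine Finset.card_image_le.trans ?_
    rw [Finset.card_product, pow_succ]
    exact Nat.mul_le_mul_right _ ih

noncomputable def tail (b : ℕ) (d : ℕ → ℕ) (j : ℕ) : ℝ := ∑' k, (d (k + j) : ℝ) / (b : ℝ) ^ (k + 1)

variable {b : ℕ} {d : ℕ → ℕ}

theorem hasSum_geo (hb : 2 ≤ b) : HasSum (fun k : ℕ => ((b : ℝ) - 1) / (b : ℝ) ^ (k + 1)) 1 := by
  have hb' : (2 : ℝ) ≤ b := by exact_mod_cast hb
  have h1 : (0 : ℝ) ≤ (b : ℝ)⁻¹ := by positivity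
  have h2 : (b : ℝ)⁻¹ < 1 := inv_lt_one_of_one_lt₀ (by linarith)
  have h3 := (hasSum_geometric_of_lt_one h1 h2).mul_left (((b : ℝ) - 1) / b)
  have h4 : ((b : ℝ) - 1) / b * (1 - (b : ℝ)⁻¹)⁻¹ = 1 := by
    have : (b : ℝ) - 1 ≠ 0 := by linarith
    field_simp
  rw [h4] at h3
  have h5 : (fun k : ℕ => ((b : ℝ) - 1) / (b : ℝ) ^ (k + 1)) = fun i : ℕ => ((b : ℝ) - 1) / b * (b : ℝ)⁻¹ ^ i := by
    funext k
    rw [pow_succ, inv_pow]
    field_simp
  rw [h5]
  exact h3

theorem summ (hb : 2 ≤ b) (hd : ∀ k, d k < b) (j : ℕ) : Summable (fun k => (d (k + j) : ℝ) / (b : ℝ) ^ (k + 1)) := by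
  refine Summable.of_nonneg_of_le (fun k => by positivity) (fun k => ?_) (hasSum_geo hb).summable
  have h1 : (d (k + j) : ℝ) ≤ (b : ℝ) - 1 := by
    have h2 := hd (k + j)
    have h3 : d (k + j) + 1 ≤ b := h2
    have h4 : ((d (k + j) + 1 : ℕ) : ℝ) ≤ b := by exact_mod_cast h3
    push_cast at h4
    linarith
  gcongr

theorem tail_nonneg (j : ℕ) : 0 ≤ tail b d j := tsum_nonneg fun k => by positivity

theorem tail_le_one (hb : 2 ≤ b) (hd : ∀ k, d k < b) (j : ℕ) : tail b d j ≤ 1 := by
  rw [← (hasSum_geo hb).tsum_eq]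
  refine (summ hb hd j).tsum_le_tsum (fun k => ?_) (hasSum_geo hb).summable
  have h1 : (d (k + j) : ℝ) ≤ (b : ℝ) - 1 := by
    have h3 : d (k + j) + 1 ≤ b := hd (k + j)
    have h4 : ((d (k + j) + 1 : ℕ) : ℝ) ≤ b := by exact_mod_cast h3
    push_cast at h4
    linarith
  gcongr

theorem tail_step (hb : 2 ≤ b) (hd : ∀ k, d k < b) (j : ℕ) : (b : ℝ) * tail b d j = d j + tail b d (j + 1) := by
  have hb0 : (b : ℝ) ≠ 0 := by
    have : b ≠ 0 := by omega
    exact_mod_cast this
  have h1 := (summ hb hd j).tsum_eq_zero_add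
  have h2 : tail b d j = (d j : ℝ) / b + (∑' k, (d (k + (j + 1)) : ℝ) / (b : ℝ) ^ (k + 1)) / b := by
    unfold tail
    rw [h1, ← tsum_div_const]
    congr 1
    · simp
    · apply tsum_congr
      intro k
      rw [show k + 1 + j = k + (j + 1) by ring, pow_succ (b : ℝ) (k + 1)]
      field_simp
  rw [h2]
  unfold tail
  field_simp

theorem mul_pow_eq (hb : 2 ≤ b) (hd : ∀ k, d k < b) (j : ℕ) : ∃ m : ℤ, tail b d 0 * (b : ℝ) ^ j = m + tail b d j := by
  induction j with
  | zero => exact ⟨0, by simp⟩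
  | succ j ih =>
    obtain ⟨m, hm⟩ := ih
    refine ⟨b * m + d j, ?_⟩
    have h1 := tail_step hb hd j
    rw [pow_succ]
    push_cast
    linear_combination (b : ℝ) * hm + h1

theorem word (hb : 2 ≤ b) {A : Finset ℕ} (hA : A ⊆ Finset.range b) (hd : ∀ k, d k ∈ A) (j l : ℕ) :
    ∃ w ∈ W b A l, w < b ^ l ∧ tail b d j * (b : ℝ) ^ l = w + tail b d (j + l) := by
  have hd' : ∀ k, d k < b := fun k => Finset.mem_range.1 (hA (hd k))
  induction l with
  | zero => exact ⟨0, by simp [W], by simp, by simp⟩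
  | succ l ih =>
    obtain ⟨w, hw, hwb, hm⟩ := ih
    refine ⟨b * w + d (j + l), ?_, ?_, ?_⟩
    · rw [W, Finset.mem_image]
      exact ⟨(w, d (j + l)), Finset.mem_product.2 ⟨hw, hd _⟩, rfl⟩
    · have h1 := hd' (j + l)
      rw [pow_succ]
      nlinarith
    · have h1 := tail_step hb hd' (j + l)
      rw [pow_succ]
      push_cast
      have h2 : j + (l + 1) = j + l + 1 := by ring
      rw [h2]
      linear_combination (b : ℝ) * hm + h1

/-- number of `n < N` with `lam * β ^ n` in `[s, t)` modulo one -/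
noncomputable def cnt (lam β s t : ℝ) (N : ℕ) : ℕ :=
  ((Finset.range N).filter (fun n => s ≤ Int.fract (lam * β ^ n) ∧ Int.fract (lam * β ^ n) < t)).card

theorem conv (b q r : ℕ) (hb : 2 ≤ b) (hq : 1 ≤ q) (β : ℝ) (hβ : β ^ q = (b : ℝ) ^ r) (A : Finset ℕ)
    (hA : A ⊂ Finset.range b) (d : ℕ → ℕ) (hd : ∀ k, d k ∈ A) :
    ¬ ∀ s t : ℝ, 0 ≤ s → s < t → t ≤ 1 → Tendsto (fun N : ℕ =>
      (((Finset.range N).filter (fun n => s ≤ Int.fract ((∑' k, (d k : ℝ) / (b : ℝ) ^ (k + 1)) * β ^ n) ∧
        Int.fract ((∑' k, (d k : ℝ) / (b : ℝ) ^ (k + 1)) * β ^ n) < t)).card : ℝ) / N) atTop (𝓝 (t - s)) := by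
  classical
  intro h
  have hd' : ∀ k, d k < b := fun k => Finset.mem_range.1 (hA.1 (hd k))
  set lam : ℝ := ∑' k, (d k : ℝ) / (b : ℝ) ^ (k + 1) with hlam
  have hlam' : lam = tail b d 0 := by simp [tail, hlam]
  have hb0 : (0 : ℝ) < b := by
    have : 0 < b := by omega
    exact_mod_cast this
  have hq0 : (0 : ℝ) < q := by exact_mod_cast hq
  have hcnt : ∀ s t : ℝ, 0 ≤ s → s < t → t ≤ 1 → Tendsto (fun M : ℕ => (cnt lam β s t (q * M) : ℝ) / ((q * M : ℕ) : ℝ)) atTop (𝓝 (t - s)) := by
    intro s t hs hst ht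
    have h1 : Tendsto (fun M : ℕ => q * M) atTop atTop :=
      tendsto_atTop_mono (fun M => Nat.le_mul_of_pos_left M hq) tendsto_id
    exact (h s t hs hst ht).comp h1
  -- the main inequality at level `l`
  have key : ∀ l : ℕ, (1 : ℝ) / q ≤ (b : ℝ)⁻¹ ^ l + 2 * ((A.card : ℝ) / b) ^ l := by
    intro l
    set W' := (W b A l).filter (fun w => w < b ^ l) with hW'
    have hbl : (0 : ℝ) < (b : ℝ) ^ l := by positivity
    have hbl1 : (1 : ℝ) ≤ (b : ℝ) ^ l := by
      apply one_le_pow₀
      have : 1 ≤ b := by omega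
      exact_mod_cast this
    set lo : ℕ → ℝ := fun w => (w : ℝ) / (b : ℝ) ^ l with hlo
    set hi : ℕ → ℝ := fun w => min 1 (((w : ℝ) + 2) / (b : ℝ) ^ l) with hhi
    have hlt : ∀ w ∈ W', lo w < hi w := by
      intro w hw
      rw [hW', Finset.mem_filter] at hw
      have h2 : (w : ℝ) < (b : ℝ) ^ l := by exact_mod_cast hw.2
      rw [hlo, hhi, lt_min_iff]
      constructor
      · rw [div_lt_one hbl]
        exact h2
      · exact div_lt_div_of_pos_right (by linarith) hbl
    have hF : Tendsto (fun M : ℕ => (cnt lam β 0 (1 / (b : ℝ) ^ l) (q * M) : ℝ) / ((q * M : ℕ) : ℝ) +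
        ∑ w ∈ W', (cnt lam β (lo w) (hi w) (q * M) : ℝ) / ((q * M : ℕ) : ℝ)) atTop
        (𝓝 ((1 / (b : ℝ) ^ l - 0) + ∑ w ∈ W', (hi w - lo w))) := by
      apply Tendsto.add
      · apply hcnt 0 _ le_rfl (by positivity)
        rw [div_le_one hbl]
        exact hbl1
      · apply tendsto_finsetSum
        intro w hw
        apply hcnt _ _ (by positivity) (hlt w hw) (min_le_left _ _)
    have hlow : ∀ᶠ M : ℕ in atTop, (1 : ℝ) / q ≤ (cnt lam β 0 (1 / (b : ℝ) ^ l) (q * M) : ℝ) / ((q * M : ℕ) : ℝ) +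
        ∑ w ∈ W', (cnt lam β (lo w) (hi w) (q * M) : ℝ) / ((q * M : ℕ) : ℝ) := by
      filter_upwards [eventually_ge_atTop 1] with M hM
      have hM0 : (0 : ℝ) < M := by exact_mod_cast hM
      have hcard : M ≤ cnt lam β 0 (1 / (b : ℝ) ^ l) (q * M) + ∑ w ∈ W', cnt lam β (lo w) (hi w) (q * M) := by
        have h3 : ((Finset.range M).image (fun j => q * j)).card = M := by
          rw [Finset.card_image_of_injective _ (fun i j hij => Nat.eq_of_mul_eq_mul_left hq hij), Finset.card_range]
        have h4 : (Finset.range M).image (fun j => q * j) ⊆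
            (Finset.range (q * M)).filter (fun n => (0 : ℝ) ≤ Int.fract (lam * β ^ n) ∧ Int.fract (lam * β ^ n) < 1 / (b : ℝ) ^ l) ∪
            W'.biUnion (fun w => (Finset.range (q * M)).filter
              (fun n => lo w ≤ Int.fract (lam * β ^ n) ∧ Int.fract (lam * β ^ n) < hi w)) := by
          intro n hn
          rw [Finset.mem_image] at hn
          obtain ⟨j, hj, rfl⟩ := hn
          rw [Finset.mem_range] at hj
          have hr : q * j ∈ Finset.range (q * M) := Finset.mem_range.2 (Nat.mul_lt_mul_of_pos_left hj hq)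
          have h5 : lam * β ^ (q * j) = tail b d 0 * (b : ℝ) ^ (r * j) := by
            rw [pow_mul, hβ, ← pow_mul, hlam']
          obtain ⟨m, hm⟩ := mul_pow_eq hb hd' (r * j)
          obtain ⟨w, hw, hwb, hwt⟩ := word hb hA.1 hd (r * j) l
          have ht0 := tail_nonneg (b := b) (d := d) (r * j)
          have ht1 := tail_le_one hb hd' (r * j)
          have hu0 := tail_nonneg (b := b) (d := d) (r * j + l)
          have hu1 := tail_le_one hb hd' (r * j + l)
          rw [Finset.mem_union]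
          rcases eq_or_lt_of_le ht1 with h1 | h1
          · left
            rw [Finset.mem_filter]
            have h6 : Int.fract (lam * β ^ (q * j)) = 0 := by
              rw [h5, hm, h1]
              have : ((m : ℝ) + 1) = ((m + 1 : ℤ) : ℝ) := by push_cast; ring
              rw [this, Int.fract_intCast]
            rw [h6]
            exact ⟨hr, le_rfl, by positivity⟩
          · right
            rw [Finset.mem_biUnion]
            refine ⟨w, ?_, ?_⟩
            · rw [hW', Finset.mem_filter]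
              exact ⟨hw, hwb⟩
            · rw [Finset.mem_filter]
              have h6 : Int.fract (lam * β ^ (q * j)) = tail b d (r * j) := by
                rw [h5, hm, Int.fract_intCast_add, Int.fract_eq_self.2 ⟨ht0, h1⟩]
              rw [h6]
              refine ⟨hr, ?_, ?_⟩
              · rw [hlo]
                simp only
                rw [div_le_iff₀ hbl, hwt]
                linarith
              · rw [hhi]
                simp only
                rw [lt_min_iff]
                refine ⟨h1, ?_⟩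
                rw [lt_div_iff₀ hbl, hwt]
                linarith
        calc M = ((Finset.range M).image (fun j => q * j)).card := h3.symm
          _ ≤ _ := Finset.card_le_card h4
          _ ≤ _ := Finset.card_union_le _ _
          _ ≤ _ := add_le_add le_rfl Finset.card_biUnion_le
      have hcard' : (M : ℝ) ≤ cnt lam β 0 (1 / (b : ℝ) ^ l) (q * M) + ∑ w ∈ W', (cnt lam β (lo w) (hi w) (q * M) : ℝ) := by
        exact_mod_cast hcard
      rw [← Finset.sum_div, ← add_div, div_le_div_iff₀ hq0 (by positivity)]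
      push_cast
      nlinarith
    have h7 := ge_of_tendsto hF hlow
    refine h7.trans ?_
    have h8 : ∑ w ∈ W', (hi w - lo w) ≤ (A.card : ℝ) ^ l * (2 / (b : ℝ) ^ l) := by
      have h9 : ∀ w ∈ W', hi w - lo w ≤ 2 / (b : ℝ) ^ l := by
        intro w _
        have h10 : hi w ≤ ((w : ℝ) + 2) / (b : ℝ) ^ l := min_le_right _ _
        have h11 : ((w : ℝ) + 2) / (b : ℝ) ^ l = lo w + 2 / (b : ℝ) ^ l := by
          rw [hlo]
          ring
        linarith
      refine (Finset.sum_le_sum h9).trans ?_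
      rw [Finset.sum_const, nsmul_eq_mul]
      have h12 : W'.card ≤ A.card ^ l := (Finset.card_filter_le _ _).trans (card_W b A l)
      have h13 : (W'.card : ℝ) ≤ (A.card : ℝ) ^ l := by exact_mod_cast h12
      gcongr
    have h14 : (b : ℝ)⁻¹ ^ l = 1 / (b : ℝ) ^ l := by rw [inv_pow, one_div]
    have h15 : 2 * ((A.card : ℝ) / b) ^ l = (A.card : ℝ) ^ l * (2 / (b : ℝ) ^ l) := by
      rw [div_pow]
      ring
    rw [h14, h15]
    linarith
  have hAb : A.card < b := by
    have := Finset.card_lt_card hA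
    rwa [Finset.card_range] at this
  have hlim : Tendsto (fun l : ℕ => (b : ℝ)⁻¹ ^ l + 2 * ((A.card : ℝ) / b) ^ l) atTop (𝓝 (0 + 2 * 0)) := by
    have hb2 : (2 : ℝ) ≤ b := by exact_mod_cast hb
    apply Tendsto.add
    · exact tendsto_pow_atTop_nhds_zero_of_lt_one (by positivity) (inv_lt_one_of_one_lt₀ (by linarith))
    · apply Tendsto.const_mul
      apply tendsto_pow_atTop_nhds_zero_of_lt_one (by positivity)
      rw [div_lt_one hb0]
      exact_mod_cast hAb
  have h16 := ge_of_tendsto' hlim key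
  have h17 : (0 : ℝ) < 1 / q := by positivity
  linarith

end Pool.Agent.Helper46.CMConv
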